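import Pool.Agent.U996.UW.ChainAe

/-!
# Chains of primes of exact length `k` with real multipliers

A chain `p_0 = p`, `p_{i+1} = ⌊α_i p_i⌋ + h_i` with real multipliers `α_i > 0` and integers `h_i`.  For almost every
vector `(α_0, …, α_{k-1})` and all `h` the number of primes `p ≤ N` whose chain has exact length `k`
(`p_0, …, p_{k-1}` prime, `p_k` not prime) is asymptotic to `N / (log N) ^ k`; more generally the starting values may be
restricted to an arbitrary set with at least `N / (log N) ^ B` elements up to `N`.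
-/

set_option autoImplicit false

namespace Pool.Agent.Results.MP_39b545_nt.ExactLengthChains

open Finset MeasureTheory Filter Topology

/-- `z` is a (positive) prime number -/
def IsPrime (z : ℤ) : Prop := z.toNat.Prime

/-- the terms of the chain: `p_0 = p` and `p_{i+1} = ⌊α_i p_i⌋ + h_i` for `i < k` -/
noncomputable def term {k : ℕ} (α : Fin k → ℝ) (h : Fin k → ℤ) (p : ℕ) : ℕ → ℤ
  | 0 => p
  | i + 1 => if hi : i < k then ⌊α ⟨i, hi⟩ * (term α h p i : ℝ)⌋ + h ⟨i, hi⟩ else 0

/-- the number of elements of `S` in `[1, N]` -/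
noncomputable def card (S : Set ℕ) (N : ℕ) : ℕ := Set.ncard {n : ℕ | 1 ≤ n ∧ n ≤ N ∧ n ∈ S}

/-- the `p` in `S` for which `p_1, …, p_i` are primes -/
def chains {k : ℕ} (S : Set ℕ) (α : Fin k → ℝ) (h : Fin k → ℤ) (i : ℕ) : Set ℕ :=
  {p | p ∈ S ∧ ∀ j, 1 ≤ j → j ≤ i → IsPrime (term α h p j)}

/-- the primes `p` which start a chain of exact length `k`: `p_0, …, p_{k-1}` are primes and `p_k` is not a prime -/
def exact {k : ℕ} (α : Fin k → ℝ) (h : Fin k → ℤ) : Set ℕ :=
  {p | (∀ j < k, IsPrime (term α h p j)) ∧ ¬ IsPrime (term α h p k)}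

lemma term_eq {k : ℕ} (α : Fin k → ℝ) (h : Fin k → ℤ) (p : ℕ) :
    ∀ i, term α h p i = Pool.Agent.U996.UW.term α h p i := by
  intro i
  induction i with
  | zero => rfl
  | succ i ih =>
    rw [term, Pool.Agent.U996.UW.term, ih]

open Classical in
lemma card_eq (S : Set ℕ) (N : ℕ) :
    (card S N : ℝ) = ∑ n ∈ Icc 1 N, (if n ∈ S then (1 : ℝ) else 0) := by
  have e1 : {n : ℕ | 1 ≤ n ∧ n ≤ N ∧ n ∈ S} = (((Icc 1 N).filter fun n => n ∈ S : Finset ℕ) : Set ℕ) := by
    ext p
    simp only [Set.mem_ofPred_eq, Finset.coe_filter, Finset.mem_Icc, and_assoc]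
  unfold card
  rw [e1, Set.ncard_coe_finset, Finset.card_filter]
  push_cast
  rfl

open Pool.Agent.U996.UW in
open Classical in
lemma chains_eq {k : ℕ} (S : Set ℕ) (α : Fin k → ℝ) (h : Fin k → ℤ) (i N : ℕ) :
    (card (chains S α h i) N : ℝ) =
      ∑ n ∈ Icc 1 N, if good α h n i then (if n ∈ S then (1 : ℝ) else 0) else 0 := by
  rw [card_eq]
  refine Finset.sum_congr rfl fun n _ => ?_
  have e : n ∈ chains S α h i ↔ n ∈ S ∧ good α h n i := by
    unfold chains good IsPrime
    simp only [Set.mem_ofPred_eq, term_eq]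
  by_cases h1 : n ∈ S
  · by_cases h2 : good α h n i
    · rw [if_pos (e.2 ⟨h1, h2⟩), if_pos h2, if_pos h1]
    · rw [if_neg (fun hh => h2 (e.1 hh).2), if_neg h2]
  · rw [if_neg (fun hh => h1 (e.1 hh).1)]
    split_ifs <;> rfl

open Pool.Agent.U996.UW in
open Classical in
/-- Let `k ≥ 0` and let `S` be any set of natural numbers. For almost all `(α_0, …, α_{k-1})` with positive coordinates
and all integers `h_0, …, h_{k-1}`:
(1) if for some `B` and all large `N` there are at least `N / (log N) ^ B` elements of `S` up to `N`, then for every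
`i ≤ k` the number of `p ∈ S`, `p ≤ N` for which the terms `p_1, …, p_i` of the chain `p_0 = p`,
`p_{j+1} = ⌊α_j p_j⌋ + h_j` are all prime is asymptotic to `|S ∩ [1, N]| / (log N) ^ i`;
(2) if `k ≥ 1`, the number of primes `p ≤ N` which start a chain of exact length `k` (`p_0, …, p_{k-1}` are primes and
`p_k` is not a prime) is asymptotic to `N / (log N) ^ k`; in particular there are infinitely many of them. -/
theorem result (k : ℕ) (S : Set ℕ) :
    ∀ᵐ α ∂((volume : Measure (Fin k → ℝ)).restrict {α | ∀ j, 0 < α j}), ∀ h : Fin k → ℤ,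
      ((∃ B : ℕ, ∀ᶠ N : ℕ in atTop, (N : ℝ) / Real.log N ^ B ≤ card S N) → ∀ i ≤ k,
        Tendsto (fun N : ℕ => (card (chains S α h i) N : ℝ) * Real.log N ^ i / card S N) atTop (𝓝 1)) ∧
      (1 ≤ k → Tendsto (fun N : ℕ => (card (exact α h) N : ℝ) * Real.log N ^ k / N) atTop (𝓝 1) ∧
        (exact α h).Infinite) := by
  have h1 := chain_asym (fun n => if n ∈ S then (1 : ℝ) else 0) (fun n => by split_ifs <;> norm_num)
    (fun n => by split_ifs <;> norm_num) k
  obtain ⟨P, hP⟩ : ∃ P : Set ℕ, P = {p : ℕ | p.Prime} := ⟨_, rfl⟩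
  have hPs : ∀ N : ℕ, ∑ n ∈ Icc 1 N, (if n ∈ P then (1 : ℝ) else 0) = Nat.primeCounting N := by
    intro N
    rw [← pi_sum]
    refine Finset.sum_congr rfl fun n _ => ?_
    rw [hP]
    by_cases hn : n.Prime
    · rw [if_pos hn, if_pos (show n ∈ {p : ℕ | p.Prime} from hn)]
    · rw [if_neg hn, if_neg (show ¬ n ∈ {p : ℕ | p.Prime} from hn)]
  have h2 := chain_asym (fun n => if n ∈ P then (1 : ℝ) else 0)
    (fun n => by split_ifs <;> norm_num) (fun n => by split_ifs <;> norm_num) k
  filter_upwards [h1, h2] with α ha hb h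
  refine ⟨?_, ?_⟩
  · rintro ⟨B, hB⟩ i hi
    refine (ha h B ?_ i hi).congr fun N => ?_
    · filter_upwards [hB] with N hN
      rwa [card_eq] at hN
    · rw [chains_eq, card_eq]
  · intro hk
    have hc : ∀ i ≤ k, Tendsto (fun N : ℕ => (card (chains P α h i) N : ℝ) *
        Real.log N ^ (i + 1) / N) atTop (𝓝 1) := by
      intro i hi
      have h3 := hb h 2 (by
        filter_upwards [pi_dense] with N hN
        rw [hPs, ← pi_sum]
        exact hN) i hi
      have h4 := h3.mul pnt
      rw [mul_one] at h4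
      refine h4.congr' ?_
      filter_upwards [pi_dense, nlog.eventually_ge_atTop 1, eventually_ge_atTop 1] with N h5 h6 h7
      have hN : (0 : ℝ) < N := by exact_mod_cast h7
      have hl : 0 < Real.log N := by linarith
      have hp : 0 < (N : ℝ) / Real.log N ^ 2 := by positivity
      rw [pi_sum] at h5
      have hs0 : (0 : ℝ) < Nat.primeCounting N := lt_of_lt_of_le hp h5
      rw [hPs, ← chains_eq, pow_succ _ i]
      field_simp
    obtain ⟨m, rfl⟩ : ∃ m, k = m + 1 := ⟨k - 1, by omega⟩
    have e2 : ∀ N : ℕ, (card (exact α h) N : ℝ) = card (chains P α h m) N -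
        card (chains P α h (m + 1)) N := by
      intro N
      rw [card_eq, card_eq, card_eq, ← Finset.sum_sub_distrib]
      refine Finset.sum_congr rfl fun n hn => ?_
      have hm : n ∈ chains P α h m ↔ ∀ j < m + 1, IsPrime (term α h n j) := by
        constructor
        · rintro ⟨ha1, ha2⟩ j hj
          rcases Nat.eq_zero_or_pos j with h0 | h0
          · rw [h0]
            rw [hP] at ha1
            have : n.Prime := ha1
            show ((n : ℤ)).toNat.Prime
            rwa [Int.toNat_natCast]
          · exact ha2 j h0 (by omega)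
        · intro hh
          refine ⟨?_, fun j h3 h4 => hh j (by omega)⟩
          have h5 : ((n : ℤ)).toNat.Prime := hh 0 (by omega)
          rw [Int.toNat_natCast] at h5
          rw [hP]
          exact h5
      have hm1 : n ∈ chains P α h (m + 1) ↔
          n ∈ chains P α h m ∧ IsPrime (term α h n (m + 1)) := by
        constructor
        · rintro ⟨ha1, ha2⟩
          exact ⟨⟨ha1, fun j h3 h4 => ha2 j h3 (by omega)⟩, ha2 (m + 1) (by omega) le_rfl⟩
        · rintro ⟨⟨ha1, ha2⟩, ha3⟩
          refine ⟨ha1, fun j h3 h4 => ?_⟩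
          rcases Nat.lt_or_ge m j with h5 | h5
          · have : j = m + 1 := by omega
            rw [this]
            exact ha3
          · exact ha2 j h3 h5
      have he : n ∈ exact α h ↔ n ∈ chains P α h m ∧ ¬ IsPrime (term α h n (m + 1)) := by
        rw [hm]
        rfl
      by_cases h3 : n ∈ chains P α h m
      · by_cases h4 : IsPrime (term α h n (m + 1))
        · rw [if_neg (fun hh => (he.1 hh).2 h4), if_pos h3, if_pos (hm1.2 ⟨h3, h4⟩)]
          norm_num
        · rw [if_pos (he.2 ⟨h3, h4⟩), if_pos h3, if_neg (fun hh => h4 (hm1.1 hh).2)]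
          norm_num
      · rw [if_neg (fun hh => h3 (he.1 hh).1), if_neg h3, if_neg (fun hh => h3 (hm1.1 hh).1)]
        norm_num
    have hT : Tendsto (fun N : ℕ => (card (exact α h) N : ℝ) * Real.log N ^ (m + 1) / N) atTop (𝓝 1) := by
      have h3 := hc m (by omega)
      have h4 := (hc (m + 1) le_rfl).mul (nlog.const_div_atTop (1 : ℝ))
      have h5 := h3.sub h4
      rw [mul_zero, sub_zero] at h5
      refine h5.congr' ?_
      filter_upwards [nlog.eventually_ge_atTop 1, eventually_ge_atTop 1] with N h6 h7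
      have hN : (0 : ℝ) < N := by exact_mod_cast h7
      have hl : 0 < Real.log N := by linarith
      rw [e2, pow_succ _ (m + 1)]
      field_simp
    refine ⟨hT, ?_⟩
    -- infinitely many
    intro hfin
    obtain ⟨F, hF⟩ : ∃ F : ℝ, F = Set.ncard (exact α h) := ⟨_, rfl⟩
    have hbd : ∀ N : ℕ, (card (exact α h) N : ℝ) ≤ F := by
      intro N
      have : card (exact α h) N ≤ Set.ncard (exact α h) := by
        unfold card
        exact Set.ncard_le_ncard (fun n hn => hn.2.2) hfin
      rw [hF]
      exact_mod_cast this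
    have h4 : Tendsto (fun N : ℕ => F * (Real.log N ^ (m + 1) / N)) atTop (𝓝 (F * 0)) := by
      refine Tendsto.const_mul F ?_
      have h2 := Real.isLittleO_pow_log_id_atTop (n := m + 1)
      have h5 : Tendsto (fun x : ℝ => Real.log x ^ (m + 1) / x) atTop (𝓝 0) := by
        simpa using h2.tendsto_div_nhds_zero
      exact h5.comp tendsto_natCast_atTop_atTop
    rw [mul_zero] at h4
    have h5 : Tendsto (fun N : ℕ => (card (exact α h) N : ℝ) * Real.log N ^ (m + 1) / N) atTop (𝓝 0) := by
      refine squeeze_zero (fun N => ?_) (fun N => ?_) h4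
      · have := Real.log_natCast_nonneg N
        positivity
      · have h6 := Real.log_natCast_nonneg N
        rw [mul_div_assoc]
        exact mul_le_mul_of_nonneg_right (hbd N) (by positivity)
    have := tendsto_nhds_unique hT h5
    norm_num at this

end Pool.Agent.Results.MP_39b545_nt.ExactLengthChains
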