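import Mathlib
import Pool.Agent.U462.Sh.ZOn

set_option autoImplicit false

/-!
# Cunningham chains of the second kind: every bounded sequence of maximal lengths
-/

namespace Pool.Agent.Results.MP_39b545_nt.MaximalLengths

open Finset Filter
open scoped Topology
open Pool.Agent.U462.Sh.Law

/-- **Every bounded sequence of maximal lengths.** Let `κ j` be between `1` and `K` for every `j`. There is a
set `S` of rough numbers `≥ 2` such that for no `p ≥ 1` all the `κ j + 1` numbers `2 ^ i (p - 1) + 1`, `i ≤ κ j`,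
`j = ⌊log₂ p⌋`, belong to `S` (a chain starting between `2 ^ j` and `2 ^ (j + 1)` has at most `κ j` members),
with the uniform Hardy–Littlewood law for all systems of linear forms and all intervals, except for those
systems for which some `l` has in the interval a value `p` such that the `κ j + 1` forms `2 ^ i (l - 1) + 1`,
`i ≤ κ j`, `j = ⌊log₂ p⌋`, belong to the system. -/
theorem result : ∀ (K : ℕ) (κ : ℕ → ℕ), (∀ j, 1 ≤ κ j ∧ κ j ≤ K) →
    ∃ S : Set ℕ, (∀ m ∈ S, 2 ≤ m ∧ Rough m) ∧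
    (∀ p : ℕ, 1 ≤ p → ∃ i ≤ κ (Nat.log 2 p), 2 ^ i * (p - 1) + 1 ∉ S) ∧
    LawOn S (fun L u v => ∀ a b : ℤ, ∀ m : ℕ, u ≤ m → m < v →
      ¬ ∀ i : ℕ, i ≤ κ (Nat.log 2 (value (a, b) m)) → (2 ^ i * a, 2 ^ i * (b - 1) + 1) ∈ L) := by
  classical
  intro K κ hκ
  obtain ⟨P, hP⟩ : ∃ P : ℕ → Finset (ℤ × ℤ), P = fun k =>
      (range (k + 1)).image fun i => (((2 : ℤ) ^ i, 1 - (2 : ℤ) ^ i) : ℤ × ℤ) := ⟨_, rfl⟩
  obtain ⟨S, h1, h2, h3⟩ := Pool.Agent.U462.Sh.patOn ((range (K + 1)).image P) (by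
    intro Q hQ
    obtain ⟨k, _, rfl⟩ := mem_image.1 hQ
    rw [hP]
    refine ⟨mem_image.2 ⟨0, by simp, by simp⟩, ?_⟩
    intro l hl
    obtain ⟨i, _, rfl⟩ := mem_image.1 hl
    exact one_le_pow₀ (by norm_num)) (fun Q => {p | P (κ (Nat.log 2 p)) = Q})
  refine ⟨S, h1, ?_, Pool.Agent.U462.Sh.on_mono ?_ h3⟩
  · intro p hp
    by_contra hcon
    push Not at hcon
    apply h2 (P (κ (Nat.log 2 p))) (mem_image_of_mem _ (mem_range.2 (Nat.lt_succ_of_le (hκ _).2))) p rfl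
    intro l hl
    rw [hP] at hl
    obtain ⟨i, hi, rfl⟩ := mem_image.1 hl
    rw [mem_range] at hi
    refine ⟨_, hcon i (by omega), ?_⟩
    push_cast [Nat.cast_sub hp]
    ring
  · intro L u v hL Q hQ l₀ hl₀ hall n hn1 hn2 hn
    have hn' : P (κ (Nat.log 2 (value l₀ n))) = Q := hn
    apply hL l₀.1 l₀.2 n hn1 hn2
    intro i hi
    have h4 := hall ((2 : ℤ) ^ i, 1 - (2 : ℤ) ^ i) (by
      rw [← hn', hP]
      exact mem_image.2 ⟨i, mem_range.2 (Nat.lt_succ_of_le hi), rfl⟩)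
    have h5 : (2 : ℤ) ^ i * (l₀.2 - 1) + 1 = 2 ^ i * l₀.2 + (1 - (2 : ℤ) ^ i) := by ring
    rw [h5]
    exact h4

end Pool.Agent.Results.MP_39b545_nt.MaximalLengths
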