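import Pool.Agent.U455.TI

/-!
# Cunningham sequences of the second kind: every large multiple of 6 is a sum of three times between primes

`a_j(p) = 2 ^ j * (p - 1) + 1`, the `j`-th term of the Cunningham sequence of the second kind (`x ↦ 2 x - 1`).

`Time R j`: for at least `x ^ (1 - η)` primes `p ≤ x`, for every `η > 0` and arbitrarily large `x`, the term at
time `j` of the sequence which starts at `p` is prime, all terms at times `0 < l < j` are composite, the `R` terms
after time `j` are composite, and `p` is not a term at a time `0 < l ≤ R` of the sequence of another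
prime. For `R = 1`
and `j ≥ 2` both primes are complete chains of exact length one.

* For all `R` and `U` there is `B` such that every sufficiently large multiple `k` of `6` is a sum
  `k₁ + k₂ + k₃` of three such times, all larger than `U`, with `k₁, k₂ ≤ B`. So the `k`-th iterate is the
  composition of the iterates number `k₁`, `k₂`, `k₃`, each of which takes many primes to the next prime of their
  sequence.
* Every multiple of `6` is `k₁ + k₂ - k₃` with three such times, in infinitely many ways.

Proof. Let `G` be the set of the times. Any four classes of `K` widely spaced times contain two of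
different classes whose difference is in `G` (coloured Maynard-Tao theorem for linear forms, starting files,
`Pool.Agent.Y862.consecI`). Everything else follows from this property (`Pool.Agent.U455.TJ.all_spaced`): if
sets `A₁, A₂` of `K` elements of `G`, congruent modulo all small primes, have no differences in `G`, then the
four classes `A₁, A₂, x - A₂, x - A₁` give `x = k₁ + k₂ + k₃`; otherwise the differences of elements of `G` which
occur infinitely often form a group, and this gives the structure of `G`.
-/

set_option autoImplicit false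

namespace Pool.Agent.Results.MP_39b545_nt.SumsOfThreeTimes

open Filter

/-- `a_j(p)`, the `j`-th iterate of `x ↦ 2 x - 1` at `p ≥ 1` -/
def a (p j : ℕ) : ℕ := 2 ^ j * (p - 1) + 1


/-- many primes are taken to primes in time `j`, with no primes in between, isolated by `R` composite terms -/
def Time (R j : ℕ) : Prop := ∀ η : ℝ, 0 < η → ∃ᶠ x : ℝ in atTop,
  x ^ (1 - η) ≤ ({p : ℕ | (p : ℝ) ≤ x ∧ p.Prime ∧ (a p j).Prime ∧
    (∀ l, 0 < l → l < j → ¬ (a p l).Prime) ∧
    ∀ l, 0 < l → l ≤ R → ¬ (a p (j + l)).Prime ∧ ∀ q : ℕ, q.Prime → a q l ≠ p}.ncard : ℝ)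

theorem result (R : ℕ) :
    (∀ U : ℕ, ∃ B L : ℕ, ∀ k : ℕ, L ≤ k → 6 ∣ k → ∃ k₁ k₂ k₃ : ℕ,
      Time R k₁ ∧ Time R k₂ ∧ Time R k₃ ∧ (U < k₁ ∧ k₁ ≤ B) ∧ (U < k₂ ∧ k₂ ≤ B) ∧ U < k₃ ∧
      k = k₁ + k₂ + k₃) ∧
    (∀ k : ℕ, 6 ∣ k → ∀ U : ℕ, ∃ k₁ k₂ k₃ : ℕ,
      Time R k₁ ∧ Time R k₂ ∧ Time R k₃ ∧ U < k₁ ∧ U < k₂ ∧ U < k₃ ∧ k + k₃ = k₁ + k₂) :=
  Pool.Agent.U455.TI.transfer 2 (-1) 1 le_rfl (by norm_num) (by norm_num) one_pos
    (fun p hp h => absurd (Nat.dvd_one.1 (by simpa using h)) hp.one_lt.ne')
    a
    (fun p j hp => by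
      have h1 : 1 ≤ p := hp.one_lt.le
      unfold a
      rw [Pool.Agent.H447R3.IT.iter, Pool.Agent.W218.OG.B_two]
      push_cast [Nat.cast_sub h1]
      ring) R

end Pool.Agent.Results.MP_39b545_nt.SumsOfThreeTimes
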